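import Mathlib
import Pool.Agent.E456.SieveUp

/-!
# Upper bound for prime pairs `n, n + h`
-/

namespace Pool.Agent.GW6

open Finset Pool.Agent.E456

/-- the factor `exp (sum over primes l dividing h of 1 / l)` -/
noncomputable def fh (h : ℕ) : ℝ := Real.exp (∑ l ∈ h.primeFactors, (1 : ℝ) / l)

lemma fh_ge_one (h : ℕ) : 1 ≤ fh h := by
  unfold fh
  exact Real.one_le_exp (sum_nonneg fun l _ => by positivity)

/-- the primes `p ≤ N` with `p + h` prime -/
def PP (N h : ℕ) : Finset ℕ := (Icc 1 N).filter (fun p => p.Prime ∧ (p + h).Prime)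

/-- sieve weights -/
noncomputable def xw (h l n : ℕ) : ℝ := if l.Prime ∧ (l ∣ n ∨ l ∣ n + h) then 1 else 0

lemma xw_nonneg (h l n : ℕ) : 0 ≤ xw h l n := by unfold xw; split_ifs <;> norm_num

lemma xw_le_one (h l n : ℕ) : xw h l n ≤ 1 := by unfold xw; split_ifs <;> norm_num

lemma xw_per (h l n : ℕ) : xw h l (n + l) = xw h l n := by
  unfold xw
  have h1 : l ∣ n + l ↔ l ∣ n := Nat.dvd_add_self_right
  have h2 : l ∣ n + l + h ↔ l ∣ n + h := by
    rw [show n + l + h = n + h + l by ring]; exact Nat.dvd_add_self_right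
  simp only [h1, h2]

lemma xw_sum_eq (h l : ℕ) : ∑ n ∈ range l, xw h l n
    = (((range l).filter (fun n => l.Prime ∧ (l ∣ n ∨ l ∣ n + h))).card : ℝ) := by
  unfold xw
  rw [card_filter]
  push_cast
  rfl

lemma xw_sum_le (h l : ℕ) : ∑ n ∈ range l, xw h l n ≤ 3 := by
  rw [xw_sum_eq]
  have h1 : (range l).filter (fun n => l.Prime ∧ (l ∣ n ∨ l ∣ n + h)) ⊆
      (range l).filter (fun n => l ∣ n) ∪ (range l).filter (fun n => l ∣ n + h) := by
    intro n hn
    simp only [mem_filter, mem_union] at hn ⊢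
    tauto
  have h2 : ((range l).filter (fun n => l ∣ n)).card ≤ 1 := by
    rw [card_le_one]
    intro a ha b hb
    simp only [mem_filter, mem_range] at ha hb
    rw [Nat.eq_zero_of_dvd_of_lt ha.2 ha.1, Nat.eq_zero_of_dvd_of_lt hb.2 hb.1]
  have h3 : ((range l).filter (fun n => l ∣ n + h)).card ≤ 1 := by
    rw [card_le_one]
    intro a ha b hb
    simp only [mem_filter, mem_range] at ha hb
    rcases le_total a b with hab | hab
    · have h4 : l ∣ b - a := by
        have := Nat.dvd_sub hb.2 ha.2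
        rwa [show b + h - (a + h) = b - a by omega] at this
      have := Nat.eq_zero_of_dvd_of_lt h4 (by omega)
      omega
    · have h4 : l ∣ a - b := by
        have := Nat.dvd_sub ha.2 hb.2
        rwa [show a + h - (b + h) = a - b by omega] at this
      have := Nat.eq_zero_of_dvd_of_lt h4 (by omega)
      omega
  have h5 := (card_le_card h1).trans (card_union_le _ _)
  have : ((range l).filter (fun n => l.Prime ∧ (l ∣ n ∨ l ∣ n + h))).card ≤ 3 := by omega
  exact_mod_cast this

lemma xw_sum_ge (h l : ℕ) (hl : l.Prime) :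
    2 - (if l ∣ h then (1 : ℝ) else 0) ≤ ∑ n ∈ range l, xw h l n := by
  rw [xw_sum_eq]
  have h0 : 0 ∈ (range l).filter (fun n => l.Prime ∧ (l ∣ n ∨ l ∣ n + h)) := by
    simp [hl, hl.pos]
  split_ifs with hd
  · have : 1 ≤ ((range l).filter (fun n => l.Prime ∧ (l ∣ n ∨ l ∣ n + h))).card :=
      card_pos.mpr ⟨0, h0⟩
    have : (1 : ℝ) ≤ (((range l).filter (fun n => l.Prime ∧ (l ∣ n ∨ l ∣ n + h))).card : ℝ) := by
      exact_mod_cast this
    linarith
  · have hm : 0 < h % l := Nat.pos_of_ne_zero fun h1 => hd (Nat.dvd_of_mod_eq_zero h1)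
    have hm2 : h % l < l := Nat.mod_lt _ hl.pos
    have h1 : l - h % l ∈ (range l).filter (fun n => l.Prime ∧ (l ∣ n ∨ l ∣ n + h)) := by
      simp only [mem_filter, mem_range]
      refine ⟨by omega, hl, Or.inr ?_⟩
      refine ⟨1 + h / l, ?_⟩
      have := Nat.mod_add_div h l
      rw [mul_add, mul_one]
      omega
    have h2 : 2 ≤ ((range l).filter (fun n => l.Prime ∧ (l ∣ n ∨ l ∣ n + h))).card := by
      have h3 : ({0, l - h % l} : Finset ℕ) ⊆
          (range l).filter (fun n => l.Prime ∧ (l ∣ n ∨ l ∣ n + h)) := by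
        intro x hx
        simp only [mem_insert, mem_singleton] at hx
        rcases hx with rfl | rfl
        · exact h0
        · exact h1
      have h4 := card_le_card h3
      rw [card_pair (by omega)] at h4
      exact h4
    have : (2 : ℝ) ≤ (((range l).filter (fun n => l.Prime ∧ (l ∣ n ∨ l ∣ n + h))).card : ℝ) := by
      exact_mod_cast h2
    linarith

/-- primes pairs in `(M, 3M]` -/
lemma pairs_block : ∃ C : ℝ, 0 < C ∧ ∀ M h : ℕ, 6 ^ 12 ≤ M → 1 ≤ h →
    (((Ioc M (3 * M)).filter (fun p => p.Prime ∧ (p + h).Prime)).card : ℝ)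
      ≤ C * (M / (Real.log M) ^ 2) * fh h := by
  obtain ⟨K, hK, hs⟩ := sieve_upper_one
  obtain ⟨C, hC, hm⟩ := mertens2
  refine ⟨3 * (K * Real.log 3 * (Real.exp (2 * C + 2 * S1 6) * 576)), ?_, ?_⟩
  · have := Real.log_pos (by norm_num : (1 : ℝ) < 3)
    positivity
  intro M h hM hh
  obtain ⟨J, hJ1, hJ2⟩ := exists_J M hM
  have hM0 : 0 < M := lt_of_lt_of_le (by norm_num) hM
  have hM' : (0 : ℝ) < M := by exact_mod_cast hM0
  have h1 := hs J M (3 * M) hJ1 le_rfl (xw h) (fun l n => ⟨xw_nonneg h l n, xw_le_one h l n⟩)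
    (xw_per h) (fun l _ => xw_sum_le h l)
  have hY6 := YY_ge J
  have hYM : YY J ≤ M := (Nat.le_self_pow (by norm_num) _).trans hJ1
  -- lower bound of the left side
  have h2 : (((Ioc M (3 * M)).filter (fun p => p.Prime ∧ (p + h).Prime)).card : ℝ) / (3 * M)
      ≤ ∑ n ∈ Ioc M (3 * M), (∏ l ∈ pr 6 J, (1 - xw h l n)) / n := by
    rw [card_filter, Nat.cast_sum, sum_div]
    refine sum_le_sum fun n hn => ?_
    rw [mem_Ioc] at hn
    have hn0 : (0 : ℝ) < n := by exact_mod_cast (by omega : 0 < n)
    have hn3 : (n : ℝ) ≤ 3 * M := by exact_mod_cast hn.2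
    by_cases hp : n.Prime ∧ (n + h).Prime
    · have hprod : ∏ l ∈ pr 6 J, (1 - xw h l n) = 1 := by
        refine prod_eq_one fun l hl => ?_
        simp only [pr, mem_filter, mem_Ioc] at hl
        have hlY : l ≤ YY J := hl.1.2
        have : xw h l n = 0 := by
          unfold xw
          rw [if_neg]
          rintro ⟨hl1, hl2 | hl2⟩
          · have := (Nat.prime_dvd_prime_iff_eq hl1 hp.1).mp hl2
            omega
          · have := (Nat.prime_dvd_prime_iff_eq hl1 hp.2).mp hl2
            omega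
        rw [this, sub_zero]
      rw [if_pos hp, hprod]
      push_cast
      exact one_div_le_one_div_of_le hn0 hn3
    · rw [if_neg hp]
      simp only [Nat.cast_zero, zero_div]
      refine div_nonneg (prod_nonneg fun l _ => ?_) hn0.le
      have := xw_le_one h l n
      linarith
  -- the exponent
  have h3 : 2 * (∑ l ∈ pr 6 J, (1 : ℝ) / l) - ∑ l ∈ h.primeFactors, (1 : ℝ) / l
      ≤ ∑ l ∈ pr 6 J, (∑ n ∈ range l, xw h l n) / l := by
    have h4 : ∑ l ∈ pr 6 J, (if l ∣ h then (1 : ℝ) else 0) / l
        ≤ ∑ l ∈ h.primeFactors, (1 : ℝ) / l := by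
      calc ∑ l ∈ pr 6 J, (if l ∣ h then (1 : ℝ) else 0) / l
          = ∑ l ∈ (pr 6 J).filter (fun l => l ∣ h), (1 : ℝ) / l := by
            rw [sum_filter]
            refine sum_congr rfl fun l _ => ?_
            split_ifs <;> simp
        _ ≤ ∑ l ∈ h.primeFactors, (1 : ℝ) / l := by
            refine sum_le_sum_of_subset_of_nonneg ?_ fun l _ _ => by positivity
            intro l hl
            simp only [pr, mem_filter, mem_Ioc] at hl
            rw [Nat.mem_primeFactors]
            exact ⟨hl.1.2, hl.2, by omega⟩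
    calc 2 * (∑ l ∈ pr 6 J, (1 : ℝ) / l) - ∑ l ∈ h.primeFactors, (1 : ℝ) / l
        ≤ 2 * (∑ l ∈ pr 6 J, (1 : ℝ) / l) - ∑ l ∈ pr 6 J, (if l ∣ h then (1 : ℝ) else 0) / l := by
          linarith
      _ = ∑ l ∈ pr 6 J, (2 - (if l ∣ h then (1 : ℝ) else 0)) / l := by
          rw [mul_sum, ← sum_sub_distrib]
          refine sum_congr rfl fun l _ => ?_
          ring
      _ ≤ _ := by
          refine sum_le_sum fun l hl => ?_
          simp only [pr, mem_filter, mem_Ioc] at hl
          have := xw_sum_ge h l hl.2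
          gcongr
  have h5 : ∑ l ∈ pr 6 J, (1 : ℝ) / l ≥ Real.log (Real.log (YY J)) - C - S1 6 := by
    rw [pr_sum_eq 6 J (by norm_num)]
    have := (abs_le.mp (hm (YY J) (by omega))).1
    unfold YY at this ⊢
    linarith
  have hlY : 0 < Real.log (YY J) := Real.log_pos (by exact_mod_cast (by omega : 1 < YY J))
  have hlM : 0 < Real.log M := Real.log_pos (by
    have : (6 : ℝ) ^ 12 ≤ M := by exact_mod_cast hM
    linarith [show (1 : ℝ) < 6 ^ 12 by norm_num])
  have h6 : Real.exp (-∑ l ∈ pr 6 J, (∑ n ∈ range l, xw h l n) / l)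
      ≤ Real.exp (2 * C + 2 * S1 6) * (1 / (Real.log (YY J)) ^ 2) * fh h := by
    have e1 : 1 / (Real.log (YY J)) ^ 2 = Real.exp (-(2 * Real.log (Real.log (YY J)))) := by
      rw [Real.exp_neg, one_div]
      congr 1
      rw [show 2 * Real.log (Real.log (YY J)) = Real.log (Real.log (YY J)) * (2 : ℕ) by
        push_cast; ring, Real.exp_mul, Real.exp_log hlY, Real.rpow_natCast]
    rw [e1, fh, ← Real.exp_add, ← Real.exp_add]
    apply Real.exp_le_exp.mpr
    linarith
  have h7 : Real.log M ≤ 24 * Real.log (YY J) := by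
    have : (M : ℝ) ≤ (YY J : ℝ) ^ 24 := by exact_mod_cast hJ2.le
    calc Real.log M ≤ Real.log ((YY J : ℝ) ^ 24) := Real.log_le_log hM' this
      _ = 24 * Real.log (YY J) := by rw [Real.log_pow]; norm_num
  have h8 : 1 / (Real.log (YY J)) ^ 2 ≤ 576 / (Real.log M) ^ 2 := by
    rw [div_le_div_iff₀ (by positivity) (by positivity)]
    have : (Real.log M) ^ 2 ≤ (24 * Real.log (YY J)) ^ 2 := by gcongr
    nlinarith
  have hlog3 : Real.log (((3 * M : ℕ) : ℝ) / M) = Real.log 3 := by
    congr 1
    push_cast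
    field_simp
  rw [hlog3] at h1
  have hl3 : 0 < Real.log 3 := Real.log_pos (by norm_num)
  have hf := fh_ge_one h
  have h9 : (((Ioc M (3 * M)).filter (fun p => p.Prime ∧ (p + h).Prime)).card : ℝ) / (3 * M)
      ≤ K * Real.log 3 * (Real.exp (2 * C + 2 * S1 6) * (576 / (Real.log M) ^ 2) * fh h) := by
    refine (h2.trans h1).trans ?_
    gcongr
    refine h6.trans ?_
    gcongr
  rw [div_le_iff₀ (by positivity)] at h9
  refine h9.trans (le_of_eq ?_)
  ring

/-- cumulative bound -/
theorem pairs_le : ∃ C : ℝ, 0 < C ∧ ∀ N h : ℕ, 2 ≤ N → 1 ≤ h →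
    ((PP N h).card : ℝ) ≤ C * (N / (Real.log N) ^ 2) * fh h := by
  obtain ⟨C1, hC1, hb⟩ := pairs_block
  obtain ⟨L0, hL0⟩ : ∃ L0 : ℝ, L0 = Real.log ((6 : ℝ) ^ 14) := ⟨_, rfl⟩
  have hL0pos : 0 < L0 := by rw [hL0]; exact Real.log_pos (by norm_num)
  refine ⟨L0 ^ 2 + C1 + 4, by positivity, ?_⟩
  intro N h hN hh
  induction N using Nat.strong_induction_on with
  | _ N ih =>
    have hf := fh_ge_one h
    have hN' : (2 : ℝ) ≤ N := by exact_mod_cast hN
    have hlN : 0 < Real.log N := Real.log_pos (by linarith)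
    rcases Nat.lt_or_ge N (6 ^ 14) with hlt | hge
    · have h1 : ((PP N h).card : ℝ) ≤ N := by
        have : (PP N h).card ≤ N := by
          unfold PP
          refine (card_filter_le _ _).trans ?_
          simp
        exact_mod_cast this
      have h2 : Real.log N ≤ L0 := by
        rw [hL0]
        apply Real.log_le_log (by linarith)
        exact_mod_cast hlt.le
      have h3 : (N : ℝ) ≤ L0 ^ 2 * (N / (Real.log N) ^ 2) := by
        rw [← mul_div_assoc, le_div_iff₀ (by positivity)]
        have : (Real.log N) ^ 2 ≤ L0 ^ 2 := by gcongr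
        nlinarith
      have h4 : 0 ≤ (N : ℝ) / (Real.log N) ^ 2 := by positivity
      calc ((PP N h).card : ℝ) ≤ N := h1
        _ ≤ L0 ^ 2 * (N / (Real.log N) ^ 2) := h3
        _ ≤ (L0 ^ 2 + C1 + 4) * (N / (Real.log N) ^ 2) * 1 := by
            rw [mul_one]
            gcongr
            linarith
        _ ≤ _ := by gcongr
    · obtain ⟨M, hM⟩ : ∃ M, M = N / 3 := ⟨_, rfl⟩
      have hM1 : 3 * M ≤ N := by omega
      have hM2 : N ≤ 3 * M + 2 := by omega
      have hM3 : 6 ^ 12 ≤ M := by
        have : (6 : ℕ) ^ 14 = 36 * 6 ^ 12 := by norm_num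
        omega
      have hMlt : M < N := by omega
      have h1 := ih M hMlt (by omega)
      have h2 := hb M h hM3 hh
      have h3 : (PP N h).card ≤ (PP M h).card
          + ((Ioc M (3 * M)).filter (fun p => p.Prime ∧ (p + h).Prime)).card + 2 := by
        have hsub : PP N h ⊆ PP M h ∪ ((Ioc M (3 * M)).filter (fun p => p.Prime ∧ (p + h).Prime)
            ∪ {3 * M + 1, 3 * M + 2}) := by
          intro p hp
          simp only [PP, mem_filter, mem_Icc, mem_union, mem_Ioc, mem_insert, mem_singleton] at hp ⊢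
          by_cases h5 : p ≤ M
          · left; exact ⟨⟨hp.1.1, h5⟩, hp.2⟩
          · right
            by_cases h6 : p ≤ 3 * M
            · left; exact ⟨⟨by omega, h6⟩, hp.2⟩
            · right; omega
        have h7 := (card_le_card hsub).trans (card_union_le _ _)
        have h8 := card_union_le ((Ioc M (3 * M)).filter (fun p => p.Prime ∧ (p + h).Prime))
          {3 * M + 1, 3 * M + 2}
        have h9 : ({3 * M + 1, 3 * M + 2} : Finset ℕ).card ≤ 2 := card_le_two
        omega
      have h3' : ((PP N h).card : ℝ) ≤ ((PP M h).card : ℝ)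
          + (((Ioc M (3 * M)).filter (fun p => p.Prime ∧ (p + h).Prime)).card : ℝ) + 2 := by
        exact_mod_cast h3
      -- logs
      have hNr : ((6 : ℝ) ^ 14) ≤ N := by exact_mod_cast hge
      have hMr : (N : ℝ) / 4 ≤ M := by
        have : (N : ℝ) ≤ 3 * M + 2 := by exact_mod_cast hM2
        have h10 : (6 : ℝ) ^ 12 ≤ M := by exact_mod_cast hM3
        norm_num at h10
        linarith
      have hMN : (M : ℝ) ≤ N / 3 := by
        have : (3 : ℝ) * M ≤ N := by exact_mod_cast hM1
        linarith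
      have hlM : 0.9 * Real.log N ≤ Real.log M := by
        have e1 : Real.log N - Real.log 4 ≤ Real.log M := by
          rw [← Real.log_div (by linarith) (by norm_num)]
          exact Real.log_le_log (by linarith) hMr
        have e2 : 10 * Real.log 4 ≤ Real.log N := by
          have : Real.log ((4 : ℝ) ^ 10) ≤ Real.log N := by
            apply Real.log_le_log (by norm_num)
            refine le_trans ?_ hNr
            norm_num
          rw [Real.log_pow] at this
          exact_mod_cast this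
        linarith
      have hlM0 : 0 < Real.log M := by linarith
      have h11 : (M : ℝ) / (Real.log M) ^ 2 ≤ 0.42 * (N / (Real.log N) ^ 2) := by
        have e3 : (0.9 * Real.log N) ^ 2 ≤ (Real.log M) ^ 2 := by gcongr
        calc (M : ℝ) / (Real.log M) ^ 2 ≤ (N / 3) / (0.9 * Real.log N) ^ 2 := by gcongr
          _ = (1 / (3 * 0.81)) * (N / (Real.log N) ^ 2) := by
              rw [mul_pow]
              field_simp
              norm_num
          _ ≤ 0.42 * (N / (Real.log N) ^ 2) := by
              gcongr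
              norm_num
      have h12 : (2 : ℝ) ≤ 2 * (N / (Real.log N) ^ 2) := by
        have e4 : (Real.log N) ^ 2 ≤ N := by
          have e5 : Real.log N ≤ Real.sqrt N := by
            have e6 := Real.log_le_sub_one_of_pos (x := Real.sqrt (Real.sqrt N)) (by
              apply Real.sqrt_pos.mpr; apply Real.sqrt_pos.mpr; linarith)
            have e7 : Real.log N = 4 * Real.log (Real.sqrt (Real.sqrt N)) := by
              rw [Real.log_sqrt (Real.sqrt_nonneg _), Real.log_sqrt (by linarith)]
              ring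
            have e8 : Real.sqrt N = Real.sqrt (Real.sqrt N) ^ 2 := by
              rw [Real.sq_sqrt (Real.sqrt_nonneg _)]
            rw [e7]
            have e9 : 0 ≤ (Real.sqrt (Real.sqrt N) - 2) ^ 2 := sq_nonneg _
            nlinarith
          calc (Real.log N) ^ 2 ≤ (Real.sqrt N) ^ 2 := by gcongr
            _ = (N : ℝ) := Real.sq_sqrt (by linarith)
        have : 1 ≤ (N : ℝ) / (Real.log N) ^ 2 := by
          rw [le_div_iff₀ (by positivity), one_mul]
          exact e4
        linarith
      have hq : 0 ≤ (N : ℝ) / (Real.log N) ^ 2 := by positivity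
      calc ((PP N h).card : ℝ) ≤ ((PP M h).card : ℝ)
          + (((Ioc M (3 * M)).filter (fun p => p.Prime ∧ (p + h).Prime)).card : ℝ) + 2 := h3'
        _ ≤ (L0 ^ 2 + C1 + 4) * (0.42 * (N / (Real.log N) ^ 2)) * fh h
            + C1 * (0.42 * (N / (Real.log N) ^ 2)) * fh h + 2 * (N / (Real.log N) ^ 2) * fh h := by
            refine add_le_add (add_le_add (h1.trans ?_) (h2.trans ?_)) (h12.trans ?_)
            · gcongr
            · gcongr
            · exact le_mul_of_one_le_right (by positivity) hf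
        _ = ((L0 ^ 2 + C1 + 4) * 0.42 + C1 * 0.42 + 2) * (N / (Real.log N) ^ 2) * fh h := by ring
        _ ≤ (L0 ^ 2 + C1 + 4) * (N / (Real.log N) ^ 2) * fh h := by
            refine mul_le_mul_of_nonneg_right (mul_le_mul_of_nonneg_right ?_ hq) (by linarith)
            nlinarith [sq_nonneg L0]

end Pool.Agent.GW6
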