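import Mathlib
import Pool.Agent.GW6.Pairs

/-!
# The mean square of `fh`
-/

namespace Pool.Agent.GW6

open Finset

lemma exp_le_one_add {x : ℝ} (h0 : 0 ≤ x) (h1 : x ≤ 1) : Real.exp x ≤ 1 + 2 * x := by
  have h2 := Real.abs_exp_sub_one_sub_id_le (x := x) (by rw [abs_of_nonneg h0]; exact h1)
  have h3 := (abs_le.mp h2).2
  nlinarith

lemma fh_sq_le (h H : ℕ) (h1 : 1 ≤ h) (hH : h ≤ H) :
    (fh h) ^ 2 ≤ ∏ l ∈ (Icc 1 H).filter Nat.Prime, (1 + (if l ∣ h then (4 : ℝ) / l else 0)) := by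
  have e1 : (fh h) ^ 2 = ∏ l ∈ h.primeFactors, Real.exp (2 / l) := by
    rw [fh, ← Real.exp_nat_mul, ← Real.exp_sum, mul_sum]
    congr 1
    refine sum_congr rfl fun l _ => ?_
    push_cast
    ring
  have e2 : h.primeFactors = ((Icc 1 H).filter Nat.Prime).filter (fun l => l ∣ h) := by
    ext l
    simp only [Nat.mem_primeFactors, mem_filter, mem_Icc]
    constructor
    · rintro ⟨h2, h3, h4⟩
      exact ⟨⟨⟨h2.one_le, (Nat.le_of_dvd (by omega) h3).trans hH⟩, h2⟩, h3⟩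
    · rintro ⟨⟨h2, h3⟩, h4⟩
      exact ⟨h3, h4, by omega⟩
  rw [e1, e2, prod_filter]
  refine prod_le_prod (fun l _ => ?_) fun l hl => ?_
  · split_ifs
    · exact (Real.exp_pos _).le
    · norm_num
  · simp only [mem_filter, mem_Icc] at hl
    split_ifs
    · have h2 : (2 : ℝ) ≤ l := by exact_mod_cast hl.2.two_le
      have h3 : (2 : ℝ) / l ≤ 1 := by rw [div_le_one (by linarith)]; exact h2
      refine (exp_le_one_add (by positivity) h3).trans (le_of_eq ?_)
      ring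
    · norm_num

lemma card_dvd_le (T : Finset ℕ) (hT : ∀ l ∈ T, l.Prime) (H : ℕ) :
    (((Icc 1 H).filter (fun h => ∀ l ∈ T, l ∣ h)).card : ℝ) ≤ H / ∏ l ∈ T, (l : ℝ) := by
  have h1 : (Icc 1 H).filter (fun h => ∀ l ∈ T, l ∣ h) ⊆
      (Ioc 0 H).filter (fun h => (∏ l ∈ T, l) ∣ h) := by
    intro h hh
    simp only [mem_filter, mem_Icc, mem_Ioc] at hh ⊢
    refine ⟨⟨by omega, hh.1.2⟩, ?_⟩
    exact prod_primes_dvd h (fun l hl => (hT l hl).prime) hh.2
  have h2 := card_le_card h1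
  rw [Nat.Ioc_filter_dvd_card_eq_div] at h2
  calc (((Icc 1 H).filter (fun h => ∀ l ∈ T, l ∣ h)).card : ℝ) ≤ ((H / ∏ l ∈ T, l : ℕ) : ℝ) := by
        exact_mod_cast h2
    _ ≤ H / ((∏ l ∈ T, l : ℕ) : ℝ) := Nat.cast_div_le
    _ = H / ∏ l ∈ T, (l : ℝ) := by push_cast; rfl

lemma sum_inv_sq_le (H : ℕ) : ∑ l ∈ (Icc 1 H).filter Nat.Prime, (1 : ℝ) / (l : ℝ) ^ 2 ≤ 1 := by
  have h1 : ∀ N : ℕ, 1 ≤ N → ∑ l ∈ Icc 2 N, (1 : ℝ) / (l : ℝ) ^ 2 ≤ 1 - 1 / N := by
    intro N hN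
    induction N, hN using Nat.le_induction with
    | base => simp
    | succ N hN ih =>
      rw [sum_Icc_succ_top (by omega)]
      have hN' : (0 : ℝ) < N := by exact_mod_cast hN
      have : (1 : ℝ) / ((N + 1 : ℕ) : ℝ) ^ 2 ≤ 1 / N - 1 / ((N + 1 : ℕ) : ℝ) := by
        push_cast
        rw [div_sub_div _ _ (by positivity) (by positivity), div_le_div_iff₀ (by positivity)
          (by positivity)]
        nlinarith
      linarith
  rcases Nat.eq_zero_or_pos H with rfl | hH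
  · simp
  · calc ∑ l ∈ (Icc 1 H).filter Nat.Prime, (1 : ℝ) / (l : ℝ) ^ 2
        ≤ ∑ l ∈ Icc 2 H, (1 : ℝ) / (l : ℝ) ^ 2 := by
          refine sum_le_sum_of_subset_of_nonneg ?_ fun _ _ _ => by positivity
          intro l hl
          simp only [mem_filter, mem_Icc] at hl ⊢
          exact ⟨hl.2.two_le, hl.1.2⟩
      _ ≤ 1 - 1 / H := h1 H hH
      _ ≤ 1 := by
          have : (0 : ℝ) ≤ 1 / H := by positivity
          linarith

/-- **mean square** -/
theorem sum_fh_sq_le (H : ℕ) : ∑ h ∈ Icc 1 H, (fh h) ^ 2 ≤ Real.exp 4 * H := by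
  classical
  set P := (Icc 1 H).filter Nat.Prime with hP
  have hPp : ∀ T ∈ P.powerset, ∀ l ∈ T, l.Prime := by
    intro T hT l hl
    have := mem_powerset.mp hT hl
    rw [hP, mem_filter] at this
    exact this.2
  calc ∑ h ∈ Icc 1 H, (fh h) ^ 2
      ≤ ∑ h ∈ Icc 1 H, ∏ l ∈ P, (1 + (if l ∣ h then (4 : ℝ) / l else 0)) := by
        refine sum_le_sum fun h hh => ?_
        rw [mem_Icc] at hh
        exact fh_sq_le h H hh.1 hh.2
    _ = ∑ h ∈ Icc 1 H, ∑ T ∈ P.powerset, ∏ l ∈ T, (if l ∣ h then (4 : ℝ) / l else 0) := by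
        refine sum_congr rfl fun h _ => ?_
        rw [prod_one_add]
    _ = ∑ T ∈ P.powerset, ∑ h ∈ Icc 1 H, ∏ l ∈ T, (if l ∣ h then (4 : ℝ) / l else 0) :=
        sum_comm
    _ ≤ ∑ T ∈ P.powerset, H * ∏ l ∈ T, (4 : ℝ) / (l : ℝ) ^ 2 := by
        refine sum_le_sum fun T hT => ?_
        have h1 : ∑ h ∈ Icc 1 H, ∏ l ∈ T, (if l ∣ h then (4 : ℝ) / l else 0) =
            (((Icc 1 H).filter (fun h => ∀ l ∈ T, l ∣ h)).card : ℝ) * ∏ l ∈ T, (4 : ℝ) / l := by
          rw [← nsmul_eq_mul, ← sum_const, sum_filter]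
          refine sum_congr rfl fun h _ => ?_
          split_ifs with h2
          · exact prod_congr rfl fun l hl => if_pos (h2 l hl)
          · push Not at h2
            obtain ⟨l, hl, hd⟩ := h2
            exact prod_eq_zero hl (if_neg hd)
        rw [h1]
        have h2 : ∏ l ∈ T, (4 : ℝ) / (l : ℝ) ^ 2 = (∏ l ∈ T, (4 : ℝ) / l) / ∏ l ∈ T, (l : ℝ) := by
          rw [← prod_div_distrib]
          refine prod_congr rfl fun l _ => ?_
          rw [pow_two, div_div]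
        rw [h2]
        have h3 := card_dvd_le T (hPp T hT) H
        have h4 : 0 ≤ ∏ l ∈ T, (4 : ℝ) / l := prod_nonneg fun l _ => by positivity
        calc _ ≤ (H / ∏ l ∈ T, (l : ℝ)) * ∏ l ∈ T, (4 : ℝ) / l :=
              mul_le_mul_of_nonneg_right h3 h4
          _ = _ := by ring
    _ = H * ∏ l ∈ P, (1 + (4 : ℝ) / (l : ℝ) ^ 2) := by
        rw [← mul_sum, prod_one_add]
    _ ≤ H * Real.exp 4 := by
        refine mul_le_mul_of_nonneg_left ?_ (by positivity)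
        calc ∏ l ∈ P, (1 + (4 : ℝ) / (l : ℝ) ^ 2) ≤ ∏ l ∈ P, Real.exp ((4 : ℝ) / (l : ℝ) ^ 2) := by
              refine prod_le_prod (fun l _ => by positivity) fun l _ => ?_
              rw [add_comm]
              exact Real.add_one_le_exp _
          _ = Real.exp (∑ l ∈ P, (4 : ℝ) / (l : ℝ) ^ 2) := (Real.exp_sum _ _).symm
          _ ≤ Real.exp 4 := by
              apply Real.exp_le_exp.mpr
              have h5 := sum_inv_sq_le H
              calc ∑ l ∈ P, (4 : ℝ) / (l : ℝ) ^ 2 = 4 * ∑ l ∈ P, (1 : ℝ) / (l : ℝ) ^ 2 := by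
                    rw [mul_sum]
                    refine sum_congr rfl fun l _ => ?_
                    ring
                _ ≤ 4 * 1 := by gcongr
                _ = 4 := by norm_num
    _ = Real.exp 4 * H := mul_comm _ _

end Pool.Agent.GW6
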