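import Mathlib

/-!
# Chebyshev bounds
-/

namespace Pool.Agent.GW6

open Finset

lemma card_primes (N : ℕ) : ((Icc 1 N).filter Nat.Prime).card = Nat.primeCounting N := by
  rw [Nat.primeCounting, Nat.primeCounting', Nat.count_eq_card_filter_range]
  congr 1
  ext p
  simp only [mem_filter, mem_Icc, mem_range]
  constructor
  · rintro ⟨h1, h2⟩; exact ⟨by omega, h2⟩
  · rintro ⟨h1, h2⟩; exact ⟨⟨h2.one_le, by omega⟩, h2⟩

lemma log_sq_le {x : ℝ} (hx : 1 ≤ x) : (Real.log x) ^ 2 ≤ x := by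
  have h0 : 0 ≤ Real.log x := Real.log_nonneg hx
  have e5 : Real.log x ≤ Real.sqrt x := by
    have e6 := Real.log_le_sub_one_of_pos (x := Real.sqrt (Real.sqrt x)) (by
      apply Real.sqrt_pos.mpr; apply Real.sqrt_pos.mpr; linarith)
    have e7 : Real.log x = 4 * Real.log (Real.sqrt (Real.sqrt x)) := by
      rw [Real.log_sqrt (Real.sqrt_nonneg _), Real.log_sqrt (by linarith)]
      ring
    have e8 : Real.sqrt x = Real.sqrt (Real.sqrt x) ^ 2 := by
      rw [Real.sq_sqrt (Real.sqrt_nonneg _)]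
    rw [e7]
    have e9 : 0 ≤ (Real.sqrt (Real.sqrt x) - 2) ^ 2 := sq_nonneg _
    nlinarith
  calc (Real.log x) ^ 2 ≤ (Real.sqrt x) ^ 2 := by gcongr
    _ = x := Real.sq_sqrt (by linarith)

lemma cheb_upper (N : ℕ) (hN : 2 ≤ N) :
    (((Icc 1 N).filter Nat.Prime).card : ℝ) ≤ 4 * (N / Real.log N) := by
  have hN' : (2 : ℝ) ≤ N := by exact_mod_cast hN
  have hl : 0 < Real.log N := Real.log_pos (by linarith)
  have h1 := Chebyshev.pi_le_log4_mul_div (x := (N : ℝ)) (by linarith)
  rw [Nat.floor_natCast, Real.log_sqrt (by linarith)] at h1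
  rw [card_primes]
  refine h1.trans ?_
  have h2 : Real.log 4 ≤ 1.5 := by
    have : Real.log 4 = 2 * Real.log 2 := by
      rw [show (4 : ℝ) = 2 ^ 2 by norm_num, Real.log_pow]; norm_num
    rw [this]
    linarith [Real.log_two_lt_d9]
  have h3 : Real.sqrt N ≤ N / Real.log N := by
    rw [le_div_iff₀ hl]
    have h4 := log_sq_le (x := (N : ℝ)) (by linarith)
    have h5 : Real.log N ≤ Real.sqrt N := Real.le_sqrt_of_sq_le h4
    calc Real.sqrt N * Real.log N ≤ Real.sqrt N * Real.sqrt N := by gcongr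
      _ = N := Real.mul_self_sqrt (by linarith)
  have h6 : Real.log 4 * N / (Real.log N / 2) = (2 * Real.log 4) * (N / Real.log N) := by
    field_simp
  rw [h6]
  have h7 : 0 ≤ (N : ℝ) / Real.log N := by positivity
  nlinarith

lemma cheb_ge (N : ℕ) (hN : 2 ≤ N) :
    1 / 10 * (N / Real.log N) ≤ (((Icc 1 N).filter Nat.Prime).card : ℝ) := by
  have hN' : (2 : ℝ) ≤ N := by exact_mod_cast hN
  have hl : 0 < Real.log N := Real.log_pos (by linarith)
  rw [card_primes]
  refine le_trans ?_ (Chebyshev.pi_ge N)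
  rw [← mul_div_assoc]
  refine div_le_div_of_nonneg_right ?_ hl.le
  have h1 : Real.log (N + 1) ≤ (N + 1) / 4 - 1 + 2 * Real.log 2 := by
    have h2 : Real.log ((N + 1 : ℝ) / 4) ≤ (N + 1) / 4 - 1 :=
      Real.log_le_sub_one_of_pos (by positivity)
    rw [Real.log_div (by positivity) (by norm_num)] at h2
    have h3 : Real.log 4 = 2 * Real.log 2 := by
      rw [show (4 : ℝ) = 2 ^ 2 by norm_num, Real.log_pow]; norm_num
    linarith
  have h4 := Real.log_two_gt_d9
  have h5 := Real.log_two_lt_d9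
  nlinarith

lemma cheb_lower (N : ℕ) (hN : 4 * 160 ^ 2 ≤ N) :
    1 / 20 * (N / Real.log N) ≤ (((Ioc (N / 160) N).filter Nat.Prime).card : ℝ) := by
  obtain ⟨a, ha⟩ : ∃ a, a = N / 160 := ⟨_, rfl⟩
  rw [← ha]
  have ha1 : 160 * a ≤ N := by omega
  have ha2 : N < 160 * (a + 1) := by omega
  have ha3 : 2 ≤ a := by omega
  have hN' : (4 * 160 ^ 2 : ℝ) ≤ N := by exact_mod_cast hN
  have hl : 0 < Real.log N := Real.log_pos (by linarith [show (1 : ℝ) < 4 * 160 ^ 2 by norm_num])
  have h1 := cheb_ge N (by omega)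
  have h2 := cheb_upper a ha3
  have h3 : Real.log N ≤ 2 * Real.log a := by
    have h4 : (N : ℝ) ≤ (a : ℝ) ^ 2 := by
      have h5 : (N : ℝ) ≤ 320 * a := by
        have : N ≤ 320 * a := by omega
        exact_mod_cast this
      have h6 : (320 : ℝ) ≤ a := by
        have : 320 ≤ a := by omega
        exact_mod_cast this
      nlinarith
    calc Real.log N ≤ Real.log ((a : ℝ) ^ 2) := Real.log_le_log (by linarith [show (0 : ℝ) < 4 * 160 ^ 2 by norm_num]) h4
      _ = 2 * Real.log a := by rw [Real.log_pow]; norm_num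
  have h7 : (a : ℝ) / Real.log a ≤ 1 / 80 * (N / Real.log N) := by
    have h8 : (a : ℝ) ≤ N / 160 := by
      rw [le_div_iff₀ (by norm_num)]
      have : a * 160 ≤ N := by omega
      exact_mod_cast this
    have hla : 0 < Real.log a := by linarith
    calc (a : ℝ) / Real.log a ≤ (N / 160) / (Real.log N / 2) := by
          gcongr
          linarith
      _ = 1 / 80 * (N / Real.log N) := by
          field_simp
          norm_num
  have h9 : (Icc 1 N).filter Nat.Prime ⊆
      (Icc 1 a).filter Nat.Prime ∪ (Ioc a N).filter Nat.Prime := by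
    intro p hp
    simp only [mem_filter, mem_Icc, mem_union, mem_Ioc] at hp ⊢
    rcases le_or_gt p a with h | h
    · left; exact ⟨⟨hp.1.1, h⟩, hp.2⟩
    · right; exact ⟨⟨h, hp.1.2⟩, hp.2⟩
  have h10 := (card_le_card h9).trans (card_union_le _ _)
  have h11 : (((Icc 1 N).filter Nat.Prime).card : ℝ) ≤
      (((Icc 1 a).filter Nat.Prime).card : ℝ) + (((Ioc a N).filter Nat.Prime).card : ℝ) := by
    exact_mod_cast h10
  have h12 : 0 ≤ (N : ℝ) / Real.log N := by positivity
  linarith

end Pool.Agent.GW6
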