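import Mathlib
import Pool.Agent.GW6.Pairs
import Pool.Agent.GW6.Avg
import Pool.Agent.GW6.Cheb

/-!
# Goldbach partitions with a prime in a short window: second moment
-/

namespace Pool.Agent.GW6

open Finset

/-- the primes of the window with the extra conditions -/
def rp (Y H : ℕ) (b : ℕ × ℕ) : Finset ℕ :=
  (Ioc b.1 (b.1 + H)).filter (fun p => p.Prime ∧ Y / 160 < p ∧ p ≤ Y ∧ 4 * Y < 2 * b.2 - p ∧
    (2 * b.2 - p).Prime)

/-- pairs of such primes -/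
def rq (Y H : ℕ) (b : ℕ × ℕ) : Finset (ℕ × ℕ) :=
  (rp Y H b ×ˢ rp Y H b).filter (fun t => t.1 < t.2)

/-- the pairs `(y, n)` -/
def BB (X Y : ℕ) : Finset (ℕ × ℕ) := Icc 1 Y ×ˢ Icc 1 X

lemma sq_card_le (s : Finset ℕ) :
    s.card ^ 2 ≤ s.card + 2 * ((s ×ˢ s).filter (fun t => t.1 < t.2)).card := by
  classical
  have h1 : s ×ˢ s ⊆ s.image (fun p => (p, p)) ∪ ((s ×ˢ s).filter (fun t => t.1 < t.2) ∪
      ((s ×ˢ s).filter (fun t => t.1 < t.2)).image Prod.swap) := by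
    rintro ⟨a, b⟩ h
    simp only [mem_product] at h
    simp only [mem_union, mem_image, mem_filter, mem_product, Prod.mk.injEq, Prod.exists,
      Prod.swap_prod_mk]
    rcases lt_trichotomy a b with h2 | h2 | h2
    · right; left; exact ⟨h, h2⟩
    · left; exact ⟨a, h.1, rfl, h2⟩
    · right; right; exact ⟨b, a, ⟨⟨h.2, h.1⟩, h2⟩, rfl, rfl⟩
  have h2 := (card_le_card h1).trans (card_union_le _ _)
  rw [card_product] at h2
  have h3 := card_union_le ((s ×ˢ s).filter (fun t => t.1 < t.2))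
    (((s ×ˢ s).filter (fun t => t.1 < t.2)).image Prod.swap)
  have h4 : (s.image (fun p => (p, p))).card ≤ s.card := card_image_le
  have h5 : (((s ×ˢ s).filter (fun t => t.1 < t.2)).image Prod.swap).card ≤
    ((s ×ˢ s).filter (fun t => t.1 < t.2)).card := card_image_le
  rw [pow_two]
  omega

/-- lower bound of the first moment -/
lemma first_lower {X Y H : ℕ} (hH : 320 * H ≤ Y) (hY : 640 ≤ Y) :
    H * (((Ioc (Y / 160) Y).filter Nat.Prime).card * ((Ioc (4 * Y) X).filter Nat.Prime).card)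
      ≤ ∑ b ∈ BB X Y, (rp Y H b).card := by
  classical
  rw [← card_sigma]
  have e : H * (((Ioc (Y / 160) Y).filter Nat.Prime).card *
      ((Ioc (4 * Y) X).filter Nat.Prime).card) =
      (range H ×ˢ ((Ioc (Y / 160) Y).filter Nat.Prime ×ˢ
        (Ioc (4 * Y) X).filter Nat.Prime)).card := by
    rw [card_product, card_product, card_range]
  rw [e]
  refine card_le_card_of_injOn
    (fun t : ℕ × ℕ × ℕ => (⟨(t.2.1 - 1 - t.1, (t.2.1 + t.2.2) / 2), t.2.1⟩ : Σ _ : ℕ × ℕ, ℕ))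
    ?_ ?_
  · rintro ⟨j, p, q⟩ ht
    simp only [coe_product, Set.mem_prod, mem_coe, mem_range, mem_filter, mem_Ioc] at ht
    obtain ⟨hj, ⟨⟨hp1, hp2⟩, hpp⟩, ⟨hq1, hq2⟩, hqp⟩ := ht
    have hp3 : 2 < p := by omega
    have hpo := hpp.eq_two_or_odd
    have hqo := hqp.eq_two_or_odd
    have hsum : 2 * ((p + q) / 2) = p + q := by omega
    have hsub : 2 * ((p + q) / 2) - p = q := by omega
    simp only [coe_sigma, Set.mem_sigma_iff, mem_coe, BB, mem_product, mem_Icc, rp, mem_filter,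
      mem_Ioc]
    rw [hsub]
    refine ⟨⟨⟨by omega, by omega⟩, by omega, by omega⟩, ⟨by omega, by omega⟩, hpp, hp1, hp2,
      hq1, hqp⟩
  · rintro ⟨j, p, q⟩ ht ⟨j', p', q'⟩ ht' h
    simp only [coe_product, Set.mem_prod, mem_coe, mem_range, mem_filter, mem_Ioc] at ht ht'
    obtain ⟨hj, ⟨⟨hp1, hp2⟩, hpp⟩, ⟨hq1, hq2⟩, hqp⟩ := ht
    obtain ⟨hj', ⟨⟨hp1', hp2'⟩, hpp'⟩, ⟨hq1', hq2'⟩, hqp'⟩ := ht'
    have hpo := hpp.eq_two_or_odd
    have hqo := hqp.eq_two_or_odd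
    have hpo' := hpp'.eq_two_or_odd
    have hqo' := hqp'.eq_two_or_odd
    simp only [Sigma.mk.injEq, Prod.mk.injEq, heq_eq_eq] at h
    obtain ⟨⟨h1, h2⟩, h3⟩ := h
    subst h3
    have h4 : j = j' := by omega
    have h5 : q = q' := by omega
    rw [h4, h5]

/-- upper bound of the first moment -/
lemma first_upper {X Y H : ℕ} : ∑ b ∈ BB X Y, (rp Y H b).card
      ≤ H * (((Icc 1 Y).filter Nat.Prime).card * ((Icc 1 (2 * X)).filter Nat.Prime).card) := by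
  classical
  rw [← card_sigma]
  have e : H * (((Icc 1 Y).filter Nat.Prime).card *
      ((Icc 1 (2 * X)).filter Nat.Prime).card) =
      (range H ×ˢ ((Icc 1 Y).filter Nat.Prime ×ˢ (Icc 1 (2 * X)).filter Nat.Prime)).card := by
    rw [card_product, card_product, card_range]
  rw [e]
  refine card_le_card_of_injOn
    (fun t : (Σ _ : ℕ × ℕ, ℕ) => (t.2 - 1 - t.1.1, t.2, 2 * t.1.2 - t.2)) ?_ ?_
  · rintro ⟨⟨y, n⟩, p⟩ ht
    simp only [coe_sigma, Set.mem_sigma_iff, mem_coe, BB, mem_product, mem_Icc, rp, mem_filter,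
      mem_Ioc] at ht
    obtain ⟨⟨⟨hy1, hy2⟩, hn1, hn2⟩, ⟨hp1, hp2⟩, hpp, hp3, hp4, hq1, hqp⟩ := ht
    simp only [coe_product, Set.mem_prod, mem_coe, mem_range, mem_filter, mem_Icc]
    exact ⟨by omega, ⟨⟨by omega, hp4⟩, hpp⟩, ⟨by omega, by omega⟩, hqp⟩
  · rintro ⟨⟨y, n⟩, p⟩ ht ⟨⟨y', n'⟩, p'⟩ ht' h
    simp only [coe_sigma, Set.mem_sigma_iff, mem_coe, BB, mem_product, mem_Icc, rp, mem_filter,
      mem_Ioc] at ht ht'
    simp only [Prod.mk.injEq] at h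
    obtain ⟨h1, h2, h3⟩ := h
    subst h2
    have h4 : y = y' := by omega
    have h5 : n = n' := by omega
    rw [h4, h5]

/-- upper bound for the pairs -/
lemma second_upper {X Y H : ℕ} : ∑ b ∈ BB X Y, (rq Y H b).card
      ≤ (∑ h ∈ Icc 1 H, (PP Y h).card * (PP (2 * X) h).card) * H := by
  classical
  rw [← card_sigma]
  have e : (∑ h ∈ Icc 1 H, (PP Y h).card * (PP (2 * X) h).card) * H =
      ((Icc 1 H).sigma (fun h => PP Y h ×ˢ PP (2 * X) h) ×ˢ range H).card := by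
    rw [card_product, card_sigma, card_range]
    congr 1
    exact sum_congr rfl fun h _ => (card_product _ _).symm
  rw [e]
  refine card_le_card_of_injOn
    (fun t : (Σ _ : ℕ × ℕ, ℕ × ℕ) => ((⟨t.2.2 - t.2.1, (t.2.1, 2 * t.1.2 - t.2.2)⟩ :
      Σ _ : ℕ, ℕ × ℕ), t.2.1 - 1 - t.1.1)) ?_ ?_
  · rintro ⟨⟨y, n⟩, ⟨p, p'⟩⟩ ht
    simp only [coe_sigma, Set.mem_sigma_iff, mem_coe, BB, mem_product, mem_Icc, rq, rp, mem_filter,
      mem_Ioc] at ht
    obtain ⟨⟨⟨hy1, hy2⟩, hn1, hn2⟩, ⟨⟨⟨hp1, hp2⟩, hpp, hp3, hp4, hq1, hqp⟩,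
      ⟨hp1', hp2'⟩, hpp', hp3', hp4', hq1', hqp'⟩, hlt⟩ := ht
    have e1 : p + (p' - p) = p' := by omega
    have e2 : 2 * n - p' + (p' - p) = 2 * n - p := by omega
    simp only [coe_product, Set.mem_prod, mem_coe, mem_range, mem_sigma, mem_Icc, PP, mem_product,
      mem_filter, e1, e2]
    exact ⟨⟨⟨by omega, by omega⟩, ⟨⟨by omega, hp4⟩, hpp, hpp'⟩, ⟨by omega, by omega⟩, hqp', hqp⟩,
      by omega⟩
  · rintro ⟨⟨y, n⟩, ⟨p, p'⟩⟩ ht ⟨⟨y1, n1⟩, ⟨p1, p1'⟩⟩ ht1 h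
    simp only [coe_sigma, Set.mem_sigma_iff, mem_coe, BB, mem_product, mem_Icc, rq, rp, mem_filter,
      mem_Ioc] at ht ht1
    simp only [Prod.mk.injEq, Sigma.mk.injEq, heq_eq_eq] at h
    obtain ⟨⟨h1, h2, h3⟩, h4⟩ := h
    have h5 : p' = p1' := by omega
    have h6 : y = y1 := by omega
    have h7 : n = n1 := by omega
    rw [h5, h6, h7, h2]

lemma log_bounds {X Y : ℕ} (hXY : X ≤ Y ^ 2) (hYX : Y ≤ X) (hY : 2 ≤ Y) :
    0 < Real.log X ∧ Real.log X ≤ 2 * Real.log Y ∧ Real.log Y ≤ Real.log X ∧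
      Real.log X ≤ Real.log ((2 * X : ℕ) : ℝ) := by
  have hX0 : (2 : ℝ) ≤ X := by exact_mod_cast hY.trans hYX
  have hY0 : (2 : ℝ) ≤ Y := by exact_mod_cast hY
  refine ⟨Real.log_pos (by linarith), ?_, ?_, ?_⟩
  · have h1 : (X : ℝ) ≤ (Y : ℝ) ^ 2 := by exact_mod_cast hXY
    calc Real.log X ≤ Real.log ((Y : ℝ) ^ 2) := Real.log_le_log (by linarith) h1
      _ = 2 * Real.log Y := by rw [Real.log_pow]; norm_num
  · exact Real.log_le_log (by linarith) (by exact_mod_cast hYX)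
  · refine Real.log_le_log (by linarith) ?_
    push_cast
    linarith

/-- the second moment -/
theorem second_moment : ∃ K : ℝ, 0 < K ∧ ∀ X Y H : ℕ, X ≤ Y ^ 2 → Y ≤ X → 2 ≤ Y →
    ∑ b ∈ BB X Y, ((rp Y H b).card : ℝ) ^ 2 ≤
      K * (H / (Real.log X) ^ 2 + (H / (Real.log X) ^ 2) ^ 2) * (X * Y) := by
  obtain ⟨C, hC, hP⟩ := pairs_le
  refine ⟨64 + 16 * C ^ 2 * Real.exp 4, by positivity, ?_⟩
  intro X Y H hXY hYX hY
  obtain ⟨hL, hL2, hL3, hL4⟩ := log_bounds hXY hYX hY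
  have hLY : 0 < Real.log Y := by linarith
  set L := Real.log X with hLdef
  have hX0 : (0 : ℝ) ≤ X := Nat.cast_nonneg _
  have hY0 : (0 : ℝ) ≤ Y := Nat.cast_nonneg _
  have hH0 : (0 : ℝ) ≤ H := Nat.cast_nonneg _
  -- first moment
  have h1 : (∑ b ∈ BB X Y, ((rp Y H b).card : ℝ)) ≤ 64 * (H / L ^ 2) * (X * Y) := by
    have e1 := first_upper (X := X) (Y := Y) (H := H)
    have e2 : (∑ b ∈ BB X Y, ((rp Y H b).card : ℝ)) ≤
        H * ((((Icc 1 Y).filter Nat.Prime).card : ℝ) *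
          (((Icc 1 (2 * X)).filter Nat.Prime).card : ℝ)) := by exact_mod_cast e1
    have e3 := cheb_upper Y hY
    have e4 := cheb_upper (2 * X) (by omega)
    have e5 : (Y : ℝ) / Real.log Y ≤ 2 * (Y / L) := by
      calc (Y : ℝ) / Real.log Y ≤ Y / (L / 2) := by
            gcongr
            linarith
        _ = 2 * (Y / L) := by field_simp
    have e6 : ((2 * X : ℕ) : ℝ) / Real.log ((2 * X : ℕ) : ℝ) ≤ 2 * (X / L) := by
      calc ((2 * X : ℕ) : ℝ) / Real.log ((2 * X : ℕ) : ℝ) ≤ ((2 * X : ℕ) : ℝ) / L := by gcongr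
        _ = 2 * (X / L) := by push_cast; ring
    calc (∑ b ∈ BB X Y, ((rp Y H b).card : ℝ)) ≤ _ := e2
      _ ≤ H * ((4 * (2 * (Y / L))) * (4 * (2 * (X / L)))) := by
          gcongr
          · exact e3.trans (by gcongr)
          · exact e4.trans (by gcongr)
      _ = 64 * (H / L ^ 2) * (X * Y) := by field_simp; ring
  -- pairs
  have h2 : (∑ b ∈ BB X Y, ((rq Y H b).card : ℝ)) ≤
      8 * C ^ 2 * Real.exp 4 * (H / L ^ 2) ^ 2 * (X * Y) := by
    have e1 := second_upper (X := X) (Y := Y) (H := H)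
    have e2 : (∑ b ∈ BB X Y, ((rq Y H b).card : ℝ)) ≤
        (∑ h ∈ Icc 1 H, ((PP Y h).card : ℝ) * ((PP (2 * X) h).card : ℝ)) * H := by
      exact_mod_cast e1
    have e5 : (Y : ℝ) / (Real.log Y) ^ 2 ≤ 4 * (Y / L ^ 2) := by
      calc (Y : ℝ) / (Real.log Y) ^ 2 ≤ Y / (L / 2) ^ 2 := by
            gcongr
            linarith
        _ = 4 * (Y / L ^ 2) := by field_simp; norm_num
    have e6 : ((2 * X : ℕ) : ℝ) / (Real.log ((2 * X : ℕ) : ℝ)) ^ 2 ≤ 2 * (X / L ^ 2) := by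
      calc ((2 * X : ℕ) : ℝ) / (Real.log ((2 * X : ℕ) : ℝ)) ^ 2 ≤ ((2 * X : ℕ) : ℝ) / L ^ 2 := by
            gcongr
        _ = 2 * (X / L ^ 2) := by push_cast; ring
    have e7 : ∑ h ∈ Icc 1 H, ((PP Y h).card : ℝ) * ((PP (2 * X) h).card : ℝ) ≤
        (8 * C ^ 2 * (Y / L ^ 2) * (X / L ^ 2)) * (Real.exp 4 * H) := by
      calc ∑ h ∈ Icc 1 H, ((PP Y h).card : ℝ) * ((PP (2 * X) h).card : ℝ)
          ≤ ∑ h ∈ Icc 1 H, (8 * C ^ 2 * (Y / L ^ 2) * (X / L ^ 2)) * (fh h) ^ 2 := by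
            refine sum_le_sum fun h hh => ?_
            rw [mem_Icc] at hh
            have f0 := fh_ge_one h
            have f1 := hP Y h hY hh.1
            have f2 := hP (2 * X) h (by omega) hh.1
            calc ((PP Y h).card : ℝ) * ((PP (2 * X) h).card : ℝ)
                ≤ (C * (4 * (Y / L ^ 2)) * fh h) * (C * (2 * (X / L ^ 2)) * fh h) := by
                  gcongr
                  · exact f1.trans (by gcongr)
                  · exact f2.trans (by gcongr)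
              _ = _ := by ring
        _ = (8 * C ^ 2 * (Y / L ^ 2) * (X / L ^ 2)) * ∑ h ∈ Icc 1 H, (fh h) ^ 2 := by
            rw [mul_sum]
        _ ≤ _ := by
            have := sum_fh_sq_le H
            gcongr
    calc (∑ b ∈ BB X Y, ((rq Y H b).card : ℝ)) ≤ _ := e2
      _ ≤ ((8 * C ^ 2 * (Y / L ^ 2) * (X / L ^ 2)) * (Real.exp 4 * H)) * H := by gcongr
      _ = _ := by field_simp
  calc ∑ b ∈ BB X Y, ((rp Y H b).card : ℝ) ^ 2
      ≤ ∑ b ∈ BB X Y, (((rp Y H b).card : ℝ) + 2 * ((rq Y H b).card : ℝ)) := by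
        refine sum_le_sum fun b _ => ?_
        have := sq_card_le (rp Y H b)
        rw [rq]
        exact_mod_cast this
    _ = (∑ b ∈ BB X Y, ((rp Y H b).card : ℝ)) + 2 * ∑ b ∈ BB X Y, ((rq Y H b).card : ℝ) := by
        rw [sum_add_distrib, mul_sum]
    _ ≤ 64 * (H / L ^ 2) * (X * Y) + 2 * (8 * C ^ 2 * Real.exp 4 * (H / L ^ 2) ^ 2 * (X * Y)) := by
        gcongr
    _ ≤ (64 + 16 * C ^ 2 * Real.exp 4) * (H / L ^ 2 + (H / L ^ 2) ^ 2) * (X * Y) := by
        have e1 : 0 ≤ C ^ 2 * Real.exp 4 * (H / L ^ 2) * (X * Y) := by positivity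
        have e2 : 0 ≤ (H / L ^ 2) ^ 2 * ((X : ℝ) * Y) := by positivity
        nlinarith

/-- the first moment -/
theorem first_moment {X Y H : ℕ} (hXY : X ≤ Y ^ 2) (hYX : 10 ^ 6 * Y ≤ X) (hH : 10 ^ 6 * H ≤ Y)
    (hH1 : 1 ≤ H) :
    1 / 400 * (H / (Real.log X) ^ 2) * (X * Y) ≤ ∑ b ∈ BB X Y, ((rp Y H b).card : ℝ) := by
  obtain ⟨hL, hL2, hL3, hL4⟩ := log_bounds hXY (by omega) (by omega)
  have hLY : 0 < Real.log Y := by linarith
  set L := Real.log X with hLdef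
  have e1 := first_lower (X := X) (Y := Y) (H := H) (by omega) (by omega)
  have e2 : H * ((((Ioc (Y / 160) Y).filter Nat.Prime).card : ℝ) *
      (((Ioc (4 * Y) X).filter Nat.Prime).card : ℝ)) ≤ ∑ b ∈ BB X Y, ((rp Y H b).card : ℝ) := by
    exact_mod_cast e1
  have e3 := cheb_lower Y (by omega)
  have e4 := cheb_lower X (by omega)
  have e5 : (((Ioc (X / 160) X).filter Nat.Prime).card : ℝ) ≤
      (((Ioc (4 * Y) X).filter Nat.Prime).card : ℝ) := by
    have : ((Ioc (X / 160) X).filter Nat.Prime).card ≤ ((Ioc (4 * Y) X).filter Nat.Prime).card := by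
      apply card_le_card
      intro q hq
      simp only [mem_filter, mem_Ioc] at hq ⊢
      exact ⟨⟨by omega, hq.1.2⟩, hq.2⟩
    exact_mod_cast this
  have e6 : (Y : ℝ) / L ≤ Y / Real.log Y := by gcongr
  refine le_trans ?_ e2
  calc 1 / 400 * (H / L ^ 2) * ((X : ℝ) * Y) = H * ((1 / 20 * (Y / L)) * (1 / 20 * (X / L))) := by
        field_simp; ring
    _ ≤ _ := by
        gcongr
        · exact le_trans (by gcongr) e3
        · exact e4.trans e5

/-- **Second moment method** -/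
theorem many_pairs : ∃ c : ℝ, 0 < c ∧ ∀ X Y H : ℕ, 10 ^ 6 * X ≤ Y ^ 2 → 10 ^ 6 * Y ≤ X → 1 ≤ H →
    10 ^ 6 * H ≤ Y →
    c * min 1 (H / (Real.log X) ^ 2) * (X * Y) ≤
      (((BB X Y).filter (fun b => max 1 (c * (H / (Real.log X) ^ 2)) ≤
        ((rp Y H b).card : ℝ))).card : ℝ) := by
  classical
  obtain ⟨K, hK, hs⟩ := second_moment
  refine ⟨min (1 / 800) (1 / (1280000 * K)), by positivity, ?_⟩
  intro X Y H hXY hYX hH1 hH
  set c := min (1 / 800 : ℝ) (1 / (1280000 * K)) with hc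
  have hc1 : c ≤ 1 / 800 := min_le_left _ _
  have hc2 : c ≤ 1 / (1280000 * K) := min_le_right _ _
  have hc0 : 0 < c := by positivity
  have hU := hs X Y H (by omega) (by omega) (by omega)
  have hT := first_moment (X := X) (Y := Y) (H := H) (by omega) hYX hH hH1
  have hX1 : (1 : ℝ) < X := by
    have : 1 < X := by omega
    exact_mod_cast this
  have hL : 0 < Real.log X := Real.log_pos hX1
  have hY0 : (0 : ℝ) < Y := by
    have : 0 < Y := by omega
    exact_mod_cast this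
  have hH0 : (0 : ℝ) < H := by exact_mod_cast hH1
  have hX0 : (0 : ℝ) < X := by linarith
  obtain ⟨μ, hμ⟩ : ∃ μ : ℝ, μ = H / (Real.log X) ^ 2 := ⟨_, rfl⟩
  rw [← hμ] at hU hT ⊢
  have hμ0 : 0 < μ := by rw [hμ]; positivity
  obtain ⟨T, hTdef⟩ : ∃ T : ℝ, T = ∑ b ∈ BB X Y, ((rp Y H b).card : ℝ) := ⟨_, rfl⟩
  obtain ⟨U, hUdef⟩ : ∃ U : ℝ, U = ∑ b ∈ BB X Y, ((rp Y H b).card : ℝ) ^ 2 := ⟨_, rfl⟩
  rw [← hTdef] at hT
  rw [← hUdef] at hU
  have hXY0 : (0 : ℝ) < X * Y := by positivity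
  obtain ⟨t, ht⟩ : ∃ t : ℝ, t = T / (2 * (X * Y)) := ⟨_, rfl⟩
  have hT0 : 0 < T := lt_of_lt_of_le (by positivity) hT
  clear hXY hYX hH
  have ht0 : 0 ≤ t := by rw [ht]; positivity
  have htT : (X * Y) * t = T / 2 := by rw [ht]; field_simp
  have htμ : c * μ ≤ t := by
    have : 1 / 800 * μ ≤ t := by
      rw [ht, le_div_iff₀ (by positivity)]
      linarith
    refine le_trans ?_ this
    gcongr
  have hcard : ((BB X Y).card : ℝ) = X * Y := by
    rw [BB, card_product, Nat.card_Icc, Nat.card_Icc, Nat.add_sub_cancel, Nat.add_sub_cancel]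
    push_cast
    ring
  -- the good set
  set G := (BB X Y).filter (fun b => max 1 t ≤ ((rp Y H b).card : ℝ)) with hG
  have hsub : G ⊆ (BB X Y).filter (fun b => max 1 (c * μ) ≤ ((rp Y H b).card : ℝ)) := by
    intro b hb
    rw [hG, mem_filter] at hb
    rw [mem_filter]
    exact ⟨hb.1, le_trans (max_le_max le_rfl htμ) hb.2⟩
  have hbad : ∑ b ∈ (BB X Y).filter (fun b => ¬ max 1 t ≤ ((rp Y H b).card : ℝ)),
      ((rp Y H b).card : ℝ) ≤ T / 2 := by
    calc ∑ b ∈ (BB X Y).filter (fun b => ¬ max 1 t ≤ ((rp Y H b).card : ℝ)),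
          ((rp Y H b).card : ℝ)
        ≤ ∑ b ∈ (BB X Y).filter (fun b => ¬ max 1 t ≤ ((rp Y H b).card : ℝ)), t := by
          refine sum_le_sum fun b hb => ?_
          rw [mem_filter, not_le] at hb
          rcases Nat.eq_zero_or_pos (rp Y H b).card with h0 | h0
          · rw [h0]; simpa using ht0
          · have h1 : (1 : ℝ) ≤ ((rp Y H b).card : ℝ) := by exact_mod_cast h0
            rcases lt_max_iff.mp hb.2 with h2 | h2
            · linarith
            · exact h2.le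
      _ ≤ ∑ b ∈ BB X Y, t :=
          sum_le_sum_of_subset_of_nonneg (filter_subset _ _) fun _ _ _ => ht0
      _ = (X * Y) * t := by rw [sum_const, nsmul_eq_mul, hcard]
      _ = T / 2 := htT
  have hgood : T / 2 ≤ ∑ b ∈ G, ((rp Y H b).card : ℝ) := by
    have := sum_filter_add_sum_filter_not (BB X Y) (fun b => max 1 t ≤ ((rp Y H b).card : ℝ))
      (fun b => ((rp Y H b).card : ℝ))
    rw [← hG, ← hTdef] at this
    linarith
  have hCS : (∑ b ∈ G, ((rp Y H b).card : ℝ)) ^ 2 ≤ (G.card : ℝ) * U := by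
    refine (sq_sum_le_card_mul_sum_sq (s := G) (f := fun b => ((rp Y H b).card : ℝ))).trans ?_
    refine mul_le_mul_of_nonneg_left ?_ (Nat.cast_nonneg _)
    rw [hUdef]
    exact sum_le_sum_of_subset_of_nonneg (filter_subset _ _) fun _ _ _ => sq_nonneg _
  have h1 : (1 / 800 * μ * (X * Y)) ^ 2 ≤ (G.card : ℝ) * (K * (μ + μ ^ 2) * (X * Y)) := by
    have e0 : 1 / 800 * μ * ((X : ℝ) * Y) ≤ T / 2 := by linarith
    have e00 : 0 ≤ 1 / 800 * μ * ((X : ℝ) * Y) := by positivity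
    calc (1 / 800 * μ * ((X : ℝ) * Y)) ^ 2 ≤ (T / 2) ^ 2 := pow_le_pow_left₀ e00 e0 2
      _ ≤ (∑ b ∈ G, ((rp Y H b).card : ℝ)) ^ 2 := pow_le_pow_left₀ (half_pos hT0).le hgood 2
      _ ≤ (G.card : ℝ) * U := hCS
      _ ≤ _ := mul_le_mul_of_nonneg_left hU (Nat.cast_nonneg _)
  have h2 : 1 / 640000 * μ * (X * Y) ≤ (G.card : ℝ) * (K * (1 + μ)) := by
    have e1 : (1 / 800 * μ * ((X : ℝ) * Y)) ^ 2 = (1 / 640000 * μ * (X * Y)) * (μ * (X * Y)) := by
      ring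
    have e2 : (G.card : ℝ) * (K * (μ + μ ^ 2) * (X * Y)) =
        ((G.card : ℝ) * (K * (1 + μ))) * (μ * (X * Y)) := by ring
    rw [e1, e2] at h1
    exact le_of_mul_le_mul_right h1 (by positivity)
  have h3 : c * min 1 μ * (X * Y) ≤ (G.card : ℝ) := by
    have e3 : min 1 μ * (1 + μ) ≤ 2 * μ := by
      rcases le_total μ 1 with h | h
      · rw [min_eq_right h]; nlinarith
      · rw [min_eq_left h]; linarith
    have hm0 : 0 ≤ min 1 μ := le_min (by norm_num) hμ0.le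
    have hKμ : 0 < K * (1 + μ) := by positivity
    refine le_of_mul_le_mul_right ?_ hKμ
    calc c * min 1 μ * (X * Y) * (K * (1 + μ))
        ≤ 1 / (1280000 * K) * min 1 μ * (X * Y) * (K * (1 + μ)) := by gcongr
      _ = 1 / 1280000 * (min 1 μ * (1 + μ)) * (X * Y) := by field_simp
      _ ≤ 1 / 1280000 * (2 * μ) * (X * Y) := by gcongr
      _ = 1 / 640000 * μ * (X * Y) := by ring
      _ ≤ _ := h2
  refine h3.trans ?_
  exact_mod_cast card_le_card hsub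

end Pool.Agent.GW6
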